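import Mathlib

/-
Counting lemmas for functions on a finite set: three classes of medium size.
-/

namespace Pool.Agent.MP_3ce0a0_al.H86.XCombA

open Equiv Finset

variable {κ α : Type} [Fintype κ] [DecidableEq κ] [DecidableEq α]

/-- the number of places with value in `P`. -/
def cnt (θ : κ → α) (P : Finset α) : ℕ := (univ.filter fun e => θ e ∈ P).card

omit [DecidableEq κ] in
lemma cnt_le (θ : κ → α) (P : Finset α) : cnt θ P ≤ Fintype.card κ := card_le_univ _

omit [DecidableEq κ] in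
lemma cnt_empty (θ : κ → α) : cnt θ ∅ = 0 := by simp [cnt]

lemma cnt_union (θ : κ → α) {P Q : Finset α} (h : Disjoint P Q) :
    cnt θ (P ∪ Q) = cnt θ P + cnt θ Q := by
  unfold cnt
  rw [← card_union_of_disjoint]
  · exact congrArg card (by ext e; simp)
  · rw [disjoint_left] at h ⊢
    intro e h1 h2
    exact h (mem_filter.1 h1).2 (mem_filter.1 h2).2

omit [DecidableEq κ] in
lemma cnt_pos (θ : κ → α) (e : κ) : 1 ≤ cnt θ {θ e} :=
  card_pos.2 ⟨e, by simp⟩

omit [DecidableEq κ] in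
lemma exists_out (θ : κ → α) (P : Finset α) (h : cnt θ P < Fintype.card κ) : ∃ e, θ e ∉ P := by
  by_contra k
  push Not at k
  have : cnt θ P = Fintype.card κ := by
    unfold cnt
    rw [filter_true_of_mem fun e _ => k e, card_univ]
  omega

omit [DecidableEq κ] in
lemma exists_two (θ : κ → α) (u : α) (h : 2 ≤ cnt θ {u}) : ∃ a c, a ≠ c ∧ θ a = u ∧ θ c = u := by
  obtain ⟨a, ha, c, hc, hac⟩ := one_lt_card.1 (show 1 < cnt θ {u} from h)
  exact ⟨a, c, hac, by simpa using ha, by simpa using hc⟩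

/-- three classes of medium size. -/
def Good (M : ℕ) (θ : κ → α) : Prop :=
  ∃ P Q : Finset α, Disjoint P Q ∧ 3 ≤ cnt θ P ∧ cnt θ P ≤ M ∧ 3 ≤ cnt θ Q ∧ cnt θ Q ≤ M ∧
    cnt θ P + cnt θ Q + 3 ≤ Fintype.card κ ∧ Fintype.card κ ≤ cnt θ P + cnt θ Q + M

lemma grow (θ : κ → α) (A : Finset α) (h2 : ∀ u, u ∉ A → cnt θ {u} ≤ 2) (k : ℕ)
    (h : cnt θ A + k ≤ Fintype.card κ) :
    ∃ Q, Disjoint A Q ∧ k ≤ cnt θ Q ∧ cnt θ Q ≤ k + 1 := by
  induction k with
  | zero => exact ⟨∅, disjoint_empty_right _, Nat.zero_le _, by simp [cnt_empty]⟩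
  | succ k ih =>
    obtain ⟨Q, hd, h1, h3⟩ := ih (by omega)
    by_cases hq : k + 1 ≤ cnt θ Q
    · exact ⟨Q, hd, hq, by omega⟩
    · obtain ⟨e, he⟩ := exists_out θ (A ∪ Q) (by rw [cnt_union θ hd]; omega)
      rw [mem_union, not_or] at he
      have hu := cnt_union θ (P := Q) (Q := {θ e}) (disjoint_singleton_right.2 he.2)
      have := h2 _ he.1
      have := cnt_pos θ e
      exact ⟨Q ∪ {θ e}, disjoint_union_right.2 ⟨hd, disjoint_singleton_right.2 he.1⟩, by omega,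
        by omega⟩

lemma split (θ : κ → α) (A : Finset α) (h : cnt θ A + 7 ≤ Fintype.card κ) :
    (∃ Q, Disjoint A Q ∧ 3 ≤ cnt θ Q ∧ cnt θ A + cnt θ Q + 3 ≤ Fintype.card κ) ∨
      ∃ u, u ∉ A ∧ Fintype.card κ ≤ cnt θ A + cnt θ {u} + 2 := by
  by_cases k : ∃ u, u ∉ A ∧ 3 ≤ cnt θ {u}
  · obtain ⟨u, hu, h3⟩ := k
    by_cases k' : cnt θ A + cnt θ {u} + 3 ≤ Fintype.card κ
    · exact Or.inl ⟨{u}, disjoint_singleton_right.2 hu, h3, k'⟩
    · exact Or.inr ⟨u, hu, by omega⟩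
  · push Not at k
    obtain ⟨Q, hd, h1, h2⟩ := grow θ A (fun u hu => by have := k u hu; omega) 3 (by omega)
    exact Or.inl ⟨Q, hd, h1, by omega⟩

lemma mid (θ : κ → α) (M : ℕ) (hM : Fintype.card κ < 2 * M)
    (h : ∀ u, cnt θ {u} ≤ M) :
    Good M θ ∨ ∃ A, Fintype.card κ ≤ cnt θ A + M + 3 ∧ cnt θ A ≤ M := by
  classical
  obtain ⟨a, ha, hmax⟩ := exists_max_image
    ((range (M + 1)).filter fun a => ∃ P : Finset α, cnt θ P = a) id
    ⟨0, mem_filter.2 ⟨by simp, ∅, cnt_empty θ⟩⟩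
  obtain ⟨ha1, P, rfl⟩ := mem_filter.1 ha
  have ha2 : cnt θ P ≤ M := Nat.le_of_lt_succ (mem_range.1 ha1)
  have hm : ∀ Q : Finset α, cnt θ Q ≤ M → cnt θ Q ≤ cnt θ P := fun Q hQ =>
    hmax _ (mem_filter.2 ⟨mem_range.2 (Nat.lt_succ_of_le hQ), Q, rfl⟩)
  by_cases k : Fintype.card κ ≤ cnt θ P + M + 3
  · exact Or.inr ⟨P, k, ha2⟩
  · obtain ⟨e, he⟩ := exists_out θ P (by omega)
    have hd := disjoint_singleton_right.2 he
    have hu := cnt_union θ hd
    have h1 := cnt_pos θ e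
    have h2 := hm _ (h (θ e))
    have h3 : M < cnt θ P + cnt θ {θ e} := by
      by_contra k'
      have := hm (P ∪ {θ e}) (by omega)
      omega
    exact Or.inl ⟨P, {θ e}, hd, by omega, ha2, by omega, h _, by omega, by omega⟩

lemma half (θ : κ → α) (M : ℕ) (hM : M + 7 ≤ Fintype.card κ)
    (A : Finset α) (h1 : Fintype.card κ ≤ cnt θ A + M + 3) (h2 : cnt θ A ≤ M) :
    Good M θ ∨ ∃ u, u ∉ A ∧ Fintype.card κ ≤ cnt θ A + cnt θ {u} + 2 := by
  rcases split θ A (by omega) with ⟨Q, hd, k1, k2⟩ | k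
  · exact Or.inl ⟨A, Q, hd, by omega, h2, k1, by omega, k2, by omega⟩
  · exact Or.inr k

lemma dich (θ : κ → α) (M : ℕ) (hM : Fintype.card κ < 2 * M) (hM' : M + 7 ≤ Fintype.card κ)
    (h : ∀ u, cnt θ {u} ≤ M) :
    Good M θ ∨ ∃ u v, u ≠ v ∧ Fintype.card κ ≤ cnt θ {u} + cnt θ {v} + 2 := by
  rcases mid θ M hM h with k | ⟨A, h1, h2⟩
  · exact Or.inl k
  rcases half θ M hM' A h1 h2 with k | ⟨v, -, hv⟩
  · exact Or.inl k
  rcases half θ M hM' {v} (by omega) (h v) with k | ⟨u, hu, k⟩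
  · exact Or.inl k
  exact Or.inr ⟨u, v, by simpa using hu, by omega⟩

lemma orbit (T : Finset (κ → α)) (hT : ∀ θ ∈ T, ∀ σ : Perm κ, θ ∘ σ ∈ T) (θ : κ → α)
    (hθ : θ ∈ T) {P Q : Finset α} (hd : Disjoint P Q) :
    (Fintype.card κ).factorial ≤ (cnt θ P).factorial * (cnt θ Q).factorial *
      (Fintype.card κ - cnt θ P - cnt θ Q).factorial * T.card := by
  let col : α → Fin 3 := fun x => if x ∈ P then 0 else if x ∈ Q then 1 else 2
  have hs := DomMulAct.stabilizer_card (col ∘ θ)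
  have hd' := disjoint_left.1 hd
  have c0 : Fintype.card {e // (col ∘ θ) e = 0} = cnt θ P := by
    rw [Fintype.card_subtype]
    refine congrArg card (filter_congr fun e _ => ?_)
    by_cases h1 : θ e ∈ P <;> by_cases h2 : θ e ∈ Q <;> simp [col, h1, h2]
  have c1 : Fintype.card {e // (col ∘ θ) e = 1} = cnt θ Q := by
    rw [Fintype.card_subtype]
    refine congrArg card (filter_congr fun e _ => ?_)
    by_cases h1 : θ e ∈ P
    · simp [col, h1, hd' h1]
    · by_cases h2 : θ e ∈ Q <;> simp [col, h1, h2]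
  have c2 : Fintype.card {e // (col ∘ θ) e = 2} = Fintype.card κ - cnt θ P - cnt θ Q := by
    have := card_filter_add_card_filter_not (s := (univ : Finset κ)) fun e => θ e ∈ P ∪ Q
    rw [card_univ] at this
    have e1 : Fintype.card {e // (col ∘ θ) e = 2} = (univ.filter fun e => ¬ θ e ∈ P ∪ Q).card := by
      rw [Fintype.card_subtype]
      refine congrArg card (filter_congr fun e _ => ?_)
      by_cases h1 : θ e ∈ P <;> by_cases h2 : θ e ∈ Q <;> simp [col, h1, h2]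
    have e2 := cnt_union θ hd
    unfold cnt at e2 ⊢
    omega
  rw [Fin.prod_univ_three, c0, c1, c2, Fintype.card_subtype] at hs
  rw [← hs, ← Fintype.card_perm, ← card_univ]
  refine card_le_mul_card_image_of_maps_to (f := fun σ : Perm κ => θ ∘ σ)
    (fun σ _ => hT θ hθ σ) _ fun θ' _ => ?_
  rcases (univ.filter fun σ : Perm κ => θ ∘ σ = θ').eq_empty_or_nonempty with k | ⟨σ₀, k⟩
  · rw [k]; exact Nat.zero_le _
  · refine card_le_card_of_injOn (fun σ => σ * σ₀⁻¹) (fun σ hσ => ?_)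
      fun σ _ τ _ e => mul_right_cancel e
    have e1 := (mem_filter.1 k).2
    have e2 := (mem_filter.1 (mem_coe.1 hσ)).2
    refine mem_coe.2 (mem_filter.2 ⟨mem_univ _, funext fun e => ?_⟩)
    have e3 := congrFun (e2.trans e1.symm) (σ₀⁻¹ e)
    simp only [Function.comp_apply, Perm.mul_apply] at e3 ⊢
    rw [e3]
    simp

/-- the counts of two values drop by at most two, not both stay. -/
def Rel (u v : α) (θ θ' : κ → α) : Prop :=
  cnt θ' {u} ≤ cnt θ {u} ∧ cnt θ' {v} ≤ cnt θ {v} ∧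
    cnt θ' {u} + cnt θ' {v} < cnt θ {u} + cnt θ {v} ∧
    cnt θ {u} ≤ cnt θ' {u} + 2 ∧ cnt θ {v} ≤ cnt θ' {v} + 2

lemma rel_aux (u : α) (θ θ' : κ → α) (a c : κ) (h : ∀ e, e ≠ a → e ≠ c → θ' e = θ e)
    (ha : θ' a ≠ u) (hc : θ' c = u → θ c = u) :
    cnt θ' {u} ≤ cnt θ {u} ∧ (θ a = u → cnt θ' {u} < cnt θ {u}) ∧ cnt θ {u} ≤ cnt θ' {u} + 2 := by
  have hs : (univ.filter fun e => θ' e ∈ ({u} : Finset α)) ⊆
      univ.filter fun e => θ e ∈ ({u} : Finset α) := by
    intro e he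
    simp only [mem_filter, mem_univ, true_and, mem_singleton] at he ⊢
    by_cases k1 : e = a
    · exact absurd (k1 ▸ he) ha
    · by_cases k2 : e = c
      · exact k2 ▸ hc (k2 ▸ he)
      · rw [← h e k1 k2, he]
  refine ⟨card_le_card hs, fun k => card_lt_card ⟨hs, fun k' => ha ?_⟩, ?_⟩
  · simpa using k' (show a ∈ _ by simpa using k)
  · refine (card_le_card (t := (univ.filter fun e => θ' e ∈ ({u} : Finset α)) ∪ {a, c})
      fun e he => ?_).trans ((card_union_le _ _).trans (Nat.add_le_add_left card_le_two _))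
    simp only [mem_filter, mem_univ, true_and, mem_singleton, mem_union, mem_insert] at he ⊢
    by_cases k1 : e = a
    · exact Or.inr (Or.inl k1)
    · by_cases k2 : e = c
      · exact Or.inr (Or.inr k2)
      · exact Or.inl (by rw [h e k1 k2, he])

lemma rel_of (u v : α) (θ θ' : κ → α) (a c : κ) (h : ∀ e, e ≠ a → e ≠ c → θ' e = θ e)
    (ha : θ a = u ∨ θ a = v) (hu : θ' a ≠ u) (hv : θ' a ≠ v) (cu : θ' c = u → θ c = u)
    (cv : θ' c = v → θ c = v) : Rel u v θ θ' := by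
  obtain ⟨a1, a2, a3⟩ := rel_aux u θ θ' a c h hu cu
  obtain ⟨b1, b2, b3⟩ := rel_aux v θ θ' a c h hv cv
  refine ⟨a1, b1, ?_, a3, b3⟩
  rcases ha with k | k
  · have := a2 k; omega
  · have := b2 k; omega

omit [DecidableEq κ] in
lemma Rel.symm {u v : α} {θ θ' : κ → α} (h : Rel u v θ θ') : Rel v u θ θ' :=
  ⟨h.2.1, h.1, by have := h.2.2.1; omega, h.2.2.2.2, h.2.2.2.1⟩

lemma sum_pred {β γ : Type} [DecidableEq γ] (B : Finset β) (m : β → ℕ) (f g : β → γ)
    (h : ∀ u, ∑ x ∈ B with f x = u, m x = ∑ x ∈ B with g x = u, m x) (p : γ → Prop)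
    [DecidablePred p] : ∑ x ∈ B with p (f x), m x = ∑ x ∈ B with p (g x), m x := by
  have e1 := sum_fiberwise_eq_sum_filter B ((B.image f ∪ B.image g).filter p) f m
  have e2 := sum_fiberwise_eq_sum_filter B ((B.image f ∪ B.image g).filter p) g m
  rw [sum_congr rfl fun u _ => h u, e2] at e1
  rw [filter_congr (q := fun x => f x ∈ (B.image f ∪ B.image g).filter p) fun x hx => by
      simp [mem_image_of_mem f hx],
    filter_congr (p := fun x => p (g x)) (q := fun x => g x ∈ (B.image f ∪ B.image g).filter p)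
      fun x hx => by simp [mem_image_of_mem g hx], e1]

end Pool.Agent.MP_3ce0a0_al.H86.XCombA
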