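import Pool.Agent.MP_3ce0a0_al.H79.XS
import Pool.Agent.MP_3ce0a0_al.H86.XCombA

/-
A small invariant set of spectra has only signs as values.
-/

namespace Pool.Agent.MP_3ce0a0_al.H86.XComb

open Equiv Finset Pool.Agent.MP_3ce0a0_al.H79.X Pool.Agent.MP_3ce0a0_al.H86.XCombA

open scoped Classical

variable {κ : Type} [Fintype κ] [DecidableEq κ] {T : Finset (κ → ℂ × ℂ)} {m : (κ → ℂ × ℂ) → ℕ}

/-- a value that is not a pair of signs. -/
def Bad (u : ℂ × ℂ) : Prop := u.1 ^ 2 ≠ 1 ∨ u.2 ^ 2 ≠ 1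

lemma perm_mem (h : Inv T m) : ∀ θ ∈ T, ∀ σ : Perm κ, θ ∘ σ ∈ T := fun θ hθ σ =>
  (h.1 _).2 (by rw [h.2.2.1]; exact (h.1 _).1 hθ)

lemma flip_mem (h : Inv T m) {θ : κ → ℂ × ℂ} (hθ : θ ∈ T) (e : κ) :
    Function.update θ e (θ e).swap ∈ T :=
  (h.1 _).2 (by rw [h.2.2.2.1]; exact (h.1 _).1 hθ)

/-- the elements that agree with `θ` off `a`, `c` and in the first slot of `c`. -/
noncomputable def nb (T : Finset (κ → ℂ × ℂ)) (θ : κ → ℂ × ℂ) (a c : κ) : Finset (κ → ℂ × ℂ) :=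
  T.filter fun η => (∀ e, e ≠ a → e ≠ c → η e = θ e) ∧ (η c).1 = (θ c).1

lemma bal (h : Inv T m) (θ : κ → ℂ × ℂ) {a c : κ} (hac : a ≠ c) (u : ℂ) :
    ∑ η ∈ nb T θ a c with (η a).1 = u, m η =
      ∑ η ∈ nb T θ a c with (η a).1 * (η c).2 = u, m η := by
  have k := h.2.2.2.2 a c hac (Function.update θ a (u, 0))
  have e1 : ∀ η : κ → ℂ × ℂ, (∀ e, e ≠ a → e ≠ c → η e = Function.update θ a (u, 0) e) ↔
      ∀ e, e ≠ a → e ≠ c → η e = θ e := fun η =>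
    forall_congr' fun e => forall_congr' fun he => by rw [Function.update_of_ne he]
  rw [Function.update_of_ne hac.symm, Function.update_self] at k
  refine Eq.trans (sum_congr ?_ fun _ _ => rfl) (k.trans (sum_congr ?_ fun _ _ => rfl))
  · ext η
    simp only [nb, mem_filter, e1, and_assoc]
  · ext η
    simp only [nb, mem_filter, e1, and_assoc]

lemma move (h : Inv T m) {θ : κ → ℂ × ℂ} (hθ : θ ∈ T) {a c : κ} (hac : a ≠ c) :
    ∃ η ∈ T, (∀ e, e ≠ a → e ≠ c → η e = θ e) ∧ (η c).1 = (θ c).1 ∧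
      (η a).1 = (θ a).1 * (θ c).2 := by
  have k := bal h θ hac ((θ a).1 * (θ c).2)
  have k1 : m θ ≤ ∑ η ∈ nb T θ a c with (η a).1 * (η c).2 = (θ a).1 * (θ c).2, m η :=
    single_le_sum (f := m) (fun _ _ => Nat.zero_le _)
      (mem_filter.2 ⟨mem_filter.2 ⟨hθ, fun _ _ _ => rfl, rfl⟩, rfl⟩)
  have k2 := (h.1 _).1 hθ
  obtain ⟨η, hη, -⟩ := exists_ne_zero_of_sum_ne_zero
    (show ∑ η ∈ nb T θ a c with (η a).1 = (θ a).1 * (θ c).2, m η ≠ 0 by omega)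
  obtain ⟨h1, h2⟩ := mem_filter.1 hη
  obtain ⟨h3, h4, h5⟩ := mem_filter.1 h1
  exact ⟨η, h3, h4, h5, h2⟩

/-- the set of bad places. -/
noncomputable def bp (θ : κ → ℂ × ℂ) : Finset κ := univ.filter fun e => Bad (θ e)

omit [DecidableEq κ] in
lemma mem_bp {θ : κ → ℂ × ℂ} {e : κ} : e ∈ bp θ ↔ Bad (θ e) := by simp [bp]

lemma all_bad (h : Inv T m) {θ : κ → ℂ × ℂ} (hθ : θ ∈ T) {e : κ} (he : Bad (θ e)) :
    ∃ η ∈ T, ∀ e, Bad (η e) := by
  obtain ⟨η₀, hη₀, hmax₀⟩ := exists_max_image T (fun η => (bp η).card) ⟨θ, hθ⟩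
  obtain ⟨c, hc⟩ : (bp η₀).Nonempty :=
    card_pos.1 (lt_of_lt_of_le (card_pos.2 ⟨e, mem_bp.2 he⟩) (hmax₀ θ hθ))
  obtain ⟨η, hη, hb, hy⟩ : ∃ η ∈ T, bp η = bp η₀ ∧ (η c).2 ^ 2 ≠ 1 := by
    rcases mem_bp.1 hc with k | k
    · refine ⟨_, flip_mem h hη₀ c, ?_, by simpa using k⟩
      ext f
      rw [mem_bp, mem_bp]
      by_cases k' : f = c
      · subst k'
        simp [Bad, or_comm]
      · rw [Function.update_of_ne k']
    · exact ⟨η₀, hη₀, rfl, k⟩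
  have hmax : ∀ ζ ∈ T, (bp ζ).card ≤ (bp η).card := fun ζ hζ => hb ▸ hmax₀ ζ hζ
  refine ⟨η, hη, fun a => ?_⟩
  by_contra ha
  have hcb : Bad (η c) := Or.inr hy
  have hac : a ≠ c := fun k => ha (k ▸ hcb)
  have k := sum_pred (nb T η a c) m (fun ζ => (ζ a).1) (fun ζ => (ζ a).1 * (ζ c).2)
    (bal h η hac) fun u => u ^ 2 ≠ 1
  have hx : (η a).1 ^ 2 = 1 := by
    by_contra k'
    exact ha (Or.inl k')
  refine absurd k (ne_of_lt (sum_lt_sum_of_subset (i := η) (fun ζ hζ => ?_) ?_ ?_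
    (Nat.pos_of_ne_zero ((h.1 _).1 hη)) fun _ _ _ => Nat.zero_le _))
  · obtain ⟨h1, h2⟩ := mem_filter.1 hζ
    obtain ⟨h3, h4, -⟩ := mem_filter.1 h1
    refine mem_filter.2 ⟨h1, ?_⟩
    have hc' : (ζ c).2 ^ 2 = 1 := by
      by_contra k'
      have hs : insert a (bp η) ⊆ bp ζ := by
        intro f hf
        rw [mem_bp]
        by_cases k1 : f = a
        · exact k1 ▸ Or.inl h2
        · by_cases k2 : f = c
          · exact k2 ▸ Or.inr k'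
          · rw [h4 f k1 k2]
            exact mem_bp.1 ((mem_insert.1 hf).resolve_left k1)
      have := card_le_card hs
      rw [card_insert_of_notMem fun k' => ha (mem_bp.1 k')] at this
      have := hmax ζ h3
      omega
    rw [mul_pow, hc', mul_one]
    exact h2
  · refine mem_filter.2 ⟨mem_filter.2 ⟨hη, fun _ _ _ => rfl, rfl⟩, ?_⟩
    rw [mul_pow, hx, one_mul]
    exact hy
  · exact fun k' => (mem_filter.1 k').2 hx

lemma flip_step (h : Inv T m) {θ : κ → ℂ × ℂ} (hθ : θ ∈ T) {u v : ℂ × ℂ} (hu : 2 ≤ cnt θ {u})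
    (h1 : u.swap ≠ u) (h2 : u.swap ≠ v) : ∃ η ∈ T, Rel u v θ η := by
  obtain ⟨a, -, -, ha, -⟩ := exists_two θ u hu
  have k1 : Function.update θ a (θ a).swap a ≠ u := by rwa [Function.update_self, ha]
  have k2 : Function.update θ a (θ a).swap a ≠ v := by rwa [Function.update_self, ha]
  exact ⟨_, flip_mem h hθ a, rel_of u v θ _ a a (fun e he _ => Function.update_of_ne he _ _)
    (Or.inl ha) k1 k2 (fun k => absurd k k1) fun k => absurd k k2⟩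

lemma move_step (h : Inv T m) {θ : κ → ℂ × ℂ} (hθ : θ ∈ T) {u v : ℂ × ℂ} {a c : κ} (hac : a ≠ c)
    (hc : θ c = u) (ha : θ a = u ∨ θ a = v) (huv : u = v ∨ u.1 ≠ v.1)
    (h1 : (θ a).1 * u.2 ≠ u.1) (h2 : (θ a).1 * u.2 ≠ v.1) : ∃ η ∈ T, Rel u v θ η := by
  obtain ⟨η, hη, e1, e2, e3⟩ := move h hθ hac
  rw [hc] at e2 e3
  refine ⟨η, hη, rel_of u v θ η a c e1 ha (fun k => h1 (by rw [← e3, k]))
    (fun k => h2 (by rw [← e3, k])) (fun _ => hc) fun k => ?_⟩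
  rcases huv with k' | k'
  · exact k' ▸ hc
  · exact absurd (by rw [← e2, k]) k'

lemma move_two (h : Inv T m) {θ : κ → ℂ × ℂ} (hθ : θ ∈ T) {u v : ℂ × ℂ} (hu : 2 ≤ cnt θ {u})
    (hv : 2 ≤ cnt θ {v}) (huv : u.1 ≠ v.1) (hy : u.2 ^ 2 ≠ 1) :
    ∃ η ∈ T, Rel u v θ η := by
  obtain ⟨a, c, hac, ha, hc⟩ := exists_two θ u hu
  obtain ⟨b, -, -, hb, -⟩ := exists_two θ v hv
  have hbc : b ≠ c := fun k => huv (by rw [← hc, ← k, hb])
  have n1 : u.1 ≠ 0 := ha ▸ (h.2.1 θ hθ a).1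
  have n2 : u.2 ≠ 0 := ha ▸ (h.2.1 θ hθ a).2
  have n3 : v.1 ≠ 0 := hb ▸ (h.2.1 θ hθ b).1
  have y1 : u.2 ≠ 1 := fun k => hy (by rw [k, one_pow])
  have f1 : u.1 * u.2 ≠ u.1 := fun k => y1 (mul_left_cancel₀ n1 (by rw [k, mul_one]))
  have f3 : v.1 * u.2 ≠ v.1 := fun k => y1 (mul_left_cancel₀ n3 (by rw [k, mul_one]))
  by_cases k : u.1 * u.2 = v.1
  · refine move_step h hθ hbc hc (Or.inr hb) (Or.inr huv) (hb ▸ fun k' => hy ?_) (hb ▸ f3)
    refine mul_left_cancel₀ n1 ?_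
    rw [pow_two, ← mul_assoc, k, k', mul_one]
  · exact move_step h hθ hac hc (Or.inl ha) (Or.inr huv) (ha ▸ f1) (ha ▸ k)

lemma step (h : Inv T m) {θ : κ → ℂ × ℂ} (hθ : θ ∈ T) {u v : ℂ × ℂ} (hu : 2 ≤ cnt θ {u})
    (hv : 2 ≤ cnt θ {v}) (huv : u ≠ v) (hb : Bad u) : ∃ η ∈ T, Rel u v θ η := by
  by_cases k1 : u.swap = u
  · have e1 : u.2 = u.1 := congrArg Prod.fst k1
    by_cases k2 : v.swap = v
    · have e2 : v.2 = v.1 := congrArg Prod.fst k2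
      refine move_two h hθ hu hv (fun k => huv (Prod.ext k (by rw [e1, e2, k]))) ?_
      rcases hb with k | k
      · exact e1 ▸ k
      · exact k
    · obtain ⟨η, hη, k⟩ := flip_step h hθ (u := v) (v := u) hv k2
        fun k => huv (by rw [← k1, ← k, Prod.swap_swap])
      exact ⟨η, hη, k.symm⟩
  · by_cases k2 : u.swap = v
    · have e1 : u.2 = v.1 := congrArg Prod.fst k2
      have e2 : u.1 = v.2 := congrArg Prod.snd k2
      have e3 : u.1 ≠ v.1 := fun k => k1 (Prod.ext (e1.trans k.symm) (k.trans e1.symm))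
      rcases hb with k | k
      · obtain ⟨η, hη, k'⟩ := move_two h hθ hv hu e3.symm (e2 ▸ k)
        exact ⟨η, hη, k'.symm⟩
      · exact move_two h hθ hu hv e3 k
    · exact flip_step h hθ hu k1 k2

lemma low (h : Inv T m) {θ : κ → ℂ × ℂ} (hθ : θ ∈ T) {u : ℂ × ℂ} (hu : 2 ≤ cnt θ {u})
    (hb : Bad u) : ∃ η ∈ T, Rel u u θ η := by
  by_cases k1 : u.swap = u
  · have e1 : u.2 = u.1 := congrArg Prod.fst k1
    obtain ⟨a, c, hac, ha, hc⟩ := exists_two θ u hu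
    have n1 : u.1 ≠ 0 := ha ▸ (h.2.1 θ hθ a).1
    have y1 : u.2 ≠ 1 := fun k => by
      rcases hb with k' | k'
      · exact k' (by rw [← e1, k, one_pow])
      · exact k' (by rw [k, one_pow])
    have f1 : (θ a).1 * u.2 ≠ u.1 := by
      rw [ha]
      exact fun k => y1 (mul_left_cancel₀ n1 (by rw [k, mul_one]))
    exact move_step h hθ hac hc (Or.inl ha) (Or.inl rfl) f1 f1
  · exact flip_step h hθ hu k1 k1

lemma lower (h : Inv T m) {u : ℂ × ℂ} (hb : Bad u) (M : ℕ) (hM : 1 ≤ M) (n : ℕ) :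
    ∀ θ ∈ T, cnt θ {u} ≤ n → M ≤ cnt θ {u} + 1 → ∃ η ∈ T, M ≤ cnt η {u} + 1 ∧ cnt η {u} ≤ M := by
  induction n with
  | zero => exact fun θ hθ h1 h2 => ⟨θ, hθ, h2, by omega⟩
  | succ n ih =>
    intro θ hθ h1 h2
    by_cases k : cnt θ {u} ≤ M
    · exact ⟨θ, hθ, h2, k⟩
    · obtain ⟨η, hη, -, -, k1, k2, -⟩ := low h hθ (u := u) (by omega) hb
      exact ih η hη (by omega) (by omega)

lemma three (h : Inv T m) (M : ℕ) (hM : 14 ≤ M) (hM' : M + 11 ≤ Fintype.card κ)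
    {θ : κ → ℂ × ℂ} (hθ : θ ∈ T) {u v : ℂ × ℂ} (huv : u ≠ v) (hb : Bad u) (h1 : cnt θ {u} ≤ M)
    (h2 : cnt θ {v} ≤ M) (h3 : Fintype.card κ ≤ cnt θ {u} + cnt θ {v} + 2) :
    ∃ η ∈ T, Good M η := by
  have hd : Disjoint ({u} : Finset (ℂ × ℂ)) {v} := disjoint_singleton.2 huv
  have h4 := cnt_le θ ({u} ∪ {v})
  rw [cnt_union θ hd] at h4
  obtain ⟨η₁, k₁, a1, a2, a3, a4, a5⟩ := step h hθ (by omega) (by omega) huv hb
  obtain ⟨η₂, k₂, b1, b2, b3, b4, b5⟩ := step h k₁ (by omega) (by omega) huv hb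
  obtain ⟨η₃, k₃, c1, c2, c3, c4, c5⟩ := step h k₂ (by omega) (by omega) huv hb
  exact ⟨η₃, k₃, {u}, {v}, hd, by omega, by omega, by omega, by omega, by omega, by omega⟩

lemma good (h : Inv T m) (M : ℕ) (hM : 14 ≤ M) (hM' : M + 11 ≤ Fintype.card κ)
    (hN : Fintype.card κ < 2 * M) {θ : κ → ℂ × ℂ} (hθ : θ ∈ T) (hb : ∀ e, Bad (θ e)) :
    ∃ η ∈ T, Good M η := by
  have hocc : ∀ u, 2 ≤ cnt θ {u} → Bad u := fun u hu => by
    obtain ⟨a, -, -, ha, -⟩ := exists_two θ u hu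
    exact ha ▸ hb a
  by_cases k : ∀ u, cnt θ {u} ≤ M
  · rcases dich θ M hN (by omega) k with k' | ⟨u, v, huv, k'⟩
    · exact ⟨θ, hθ, k'⟩
    · exact three h M hM hM' hθ huv (hocc u (by have := k v; omega)) (k u) (k v) k'
  · push Not at k
    obtain ⟨w, hw⟩ := k
    have hbw := hocc w (by omega)
    obtain ⟨η, hη, h1, h2⟩ := lower h hbw M (by omega) _ θ hθ le_rfl (by omega)
    have k : ∀ u, cnt η {u} ≤ M := fun u => by
      by_cases e : u = w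
      · exact e ▸ h2
      · have := cnt_le η ({u} ∪ {w})
        rw [cnt_union η (disjoint_singleton.2 e)] at this
        omega
    rcases dich η M hN (by omega) k with k' | ⟨u, v, huv, k'⟩
    · exact ⟨η, hη, k'⟩
    by_cases e1 : u = w
    · exact three h M hM hM' hη huv (e1 ▸ hbw) (k u) (k v) k'
    by_cases e2 : v = w
    · exact three h M hM hM' hη huv.symm (e2 ▸ hbw) (k v) (k u) (by omega)
    have := cnt_le η ({u} ∪ {v} ∪ {w})
    rw [cnt_union η (disjoint_union_left.2 ⟨disjoint_singleton.2 e1, disjoint_singleton.2 e2⟩),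
      cnt_union η (disjoint_singleton.2 huv)] at this
    omega

theorem scomb (h : H79.X.SNum) : H79.X.SComb := by
  intro C
  obtain ⟨N₀, hN₀⟩ := h C
  refine ⟨max N₀ 50, fun κ _ _ T m hN hI hT θ hθ e => ?_⟩
  by_contra k
  have h1 : N₀ ≤ Fintype.card κ := le_trans (le_max_left _ _) hN
  have h2 : 50 ≤ Fintype.card κ := le_trans (le_max_right _ _) hN
  obtain ⟨η, hη, hb⟩ := all_bad hI hθ (Or.inl k)
  obtain ⟨ζ, hζ, P, Q, hd, a1, a2, a3, a4, a5, a6⟩ :=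
    good hI (Fintype.card κ / 2 + 10) (by omega) (by omega) (by omega) hη hb
  have k1 := orbit T (perm_mem hI) ζ hζ hd
  have k2 := (hN₀ _ h1).1 (cnt ζ P) (cnt ζ Q) (Fintype.card κ - cnt ζ P - cnt ζ Q) (by omega) a1 a3
    (by omega) a2 a4 (by omega)
  have k3 := Nat.mul_le_mul_left ((cnt ζ P).factorial * (cnt ζ Q).factorial *
    (Fintype.card κ - cnt ζ P - cnt ζ Q).factorial) hT
  rw [mul_comm] at k2
  omega

end Pool.Agent.MP_3ce0a0_al.H86.XComb
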