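import Pool.Agent.MP_3ce0a0_al.H79.Y3B

/-
The symmetric square is not realised by a graph.
-/

namespace Pool.Agent.MP_3ce0a0_al.H79.Y

open Equiv Module Pool.Agent.MP_3ce0a0_al.H79.X

namespace H86

variable {H : Type} [AddCommGroup H] [Module ℂ H]

lemma fx_fixed {K E : Type} [Group K] [MulAction K E] {p : K →* GH H} {j : H →ₗ[ℂ] (E → ℂ)}
    (hj : Function.Injective j) (h : ∀ g v e, j (p g v) (g • e) = j v e) {k : K} {v : H}
    (hv : v ∈ Fx j k) : p k v = v := by
  refine hj (funext fun x => ?_)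
  have h1 := h k v (k⁻¹ • x)
  rw [smul_inv_smul] at h1
  rw [h1]
  by_cases h2 : k • x = x
  · rw [inv_smul_eq_iff.2 h2.symm]
  · rw [hv x h2, hv _ fun h3 => h2 ?_]
    rw [smul_inv_smul] at h3
    exact (inv_smul_eq_iff.1 h3.symm).symm

lemma ex_not_span [FiniteDimensional ℂ H] {Q : Submodule ℂ H} (h : 2 ≤ finrank ℂ Q) (u : H) :
    ∃ w ∈ Q, ∀ c : ℂ, w ≠ c • u := by
  by_contra h1
  push Not at h1
  have h2 : Q ≤ Submodule.span ℂ ({u} : Finset H) := fun w hw => by
    obtain ⟨c, rfl⟩ := h1 w hw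
    exact Submodule.smul_mem _ _ (Submodule.subset_span (by simp))
  have h3 := (Submodule.finrank_mono h2).trans (finrank_span_finset_le_card (R := ℂ) {u})
  rw [Finset.card_singleton] at h3
  omega

variable {e g : Fin 3 → H}

lemma uniq (h : LinearIndependent ℂ (Sum.elim e g)) {a b c : Fin 3} (d : D3 a b c)
    {x y z x' y' z' : ℂ}
    (k : x • e a + y • e b + z • e c + x' • g a + y' • g b + z' • g c = 0) :
    x = 0 ∧ y = 0 ∧ z = 0 ∧ x' = 0 ∧ y' = 0 ∧ z' = 0 := by
  obtain ⟨d1, d2, d3⟩ := id d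
  have h1 := Fintype.linearIndependent_iff.1 h
    (Sum.elim (fun i => if i = a then x else if i = b then y else z)
      fun i => if i = a then x' else if i = b then y' else z') (by
      rw [Fintype.sum_sum_type, d.sum, d.sum]
      simp only [Sum.elim_inl, Sum.elim_inr, if_true, if_neg d1.symm, if_neg d2, if_neg d3]
      rw [← k]
      abel)
  refine ⟨?_, ?_, ?_, ?_, ?_, ?_⟩
  · simpa using h1 (.inl a)
  · simpa [d1.symm] using h1 (.inl b)
  · simpa [d2, d3] using h1 (.inl c)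
  · simpa using h1 (.inr a)
  · simpa [d1.symm] using h1 (.inr b)
  · simpa [d2, d3] using h1 (.inr c)

lemma dec (h : ⊤ ≤ Submodule.span ℂ (Set.range (Sum.elim e g))) {a b c : Fin 3} (d : D3 a b c)
    (v : H) : ∃ x y z x' y' z' : ℂ,
      v = x • e a + y • e b + z • e c + x' • g a + y' • g b + z' • g c := by
  obtain ⟨l, hl⟩ := (Submodule.mem_span_range_iff_exists_fun ℂ).1 (h (Submodule.mem_top (x := v)))
  rw [Fintype.sum_sum_type, d.sum, d.sum] at hl
  refine ⟨l (.inl a), l (.inl b), l (.inl c), l (.inr a), l (.inr b), l (.inr c), ?_⟩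
  rw [← hl]
  simp only [Sum.elim_inl, Sum.elim_inr]
  abel

lemma tr_eq (h : LinearIndependent ℂ (Sum.elim e g))
    (h' : ⊤ ≤ Submodule.span ℂ (Set.range (Sum.elim e g))) (f : GH H) (s : Fin 3 ⊕ Fin 3 → ℂ)
    (σ : Fin 3 ⊕ Fin 3 → Fin 3 ⊕ Fin 3)
    (hf : ∀ i, f (Sum.elim e g i) = s i • Sum.elim e g (σ i)) :
    tr f = ∑ i, if σ i = i then s i else 0 := by
  classical
  rw [tr, LinearMap.trace_eq_matrix_trace ℂ (Basis.mk h h'), Matrix.trace]
  refine Finset.sum_congr rfl fun i _ => ?_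
  rw [Matrix.diag_apply, LinearMap.toMatrix_apply, Basis.mk_apply, LinearEquiv.coe_coe, hf,
    map_smul, ← Basis.mk_apply h h', Basis.repr_self, Finsupp.smul_apply, Finsupp.single_apply,
    smul_eq_mul, mul_ite, mul_one, mul_zero]

lemma mem_of_smul {Q : Submodule ℂ H} {c : ℂ} {u v : H} (hc : c ≠ 0) (hv : v ∈ Q)
    (h : v = c • u) : u ∈ Q := (Q.smul_mem_iff hc).1 (h ▸ hv)

/-- the first step. -/
lemma step1 {Q : Submodule ℂ H} {A B : H →ₗ[ℂ] H} (hA : ∀ v ∈ Q, A v ∈ Q) (hB : ∀ v ∈ Q, B v ∈ Q)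
    {u x y z : H} (A1 : A u = u + (2 : ℂ) • x) (A2 : A x = x)
    (A3 : A y = y + (4 : ℂ) • x + (4 : ℂ) • u) (A4 : A z = z) (B1 : B u = u + (2 : ℂ) • y)
    (B2 : B x = x + (4 : ℂ) • y + (4 : ℂ) • u) (B3 : B y = y) (B4 : B z = z) {α β γ δ : ℂ}
    (hw : α • u + β • x + γ • y + δ • z ∈ Q) (h : ¬ (α = 0 ∧ β = 0 ∧ γ = 0)) : x ∈ Q := by
  have kA : ∀ v ∈ Q, A v - v ∈ Q := fun v hv => Q.sub_mem (hA v hv) hv
  have kB : ∀ v ∈ Q, B v - v ∈ Q := fun v hv => Q.sub_mem (hB v hv) hv
  by_cases h1 : γ = 0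
  · by_cases h2 : α = 0
    · have h3 : y ∈ Q := mem_of_smul (c := 8 * β) (mul_ne_zero (by norm_num) fun k => h ⟨h2, k, h1⟩)
        (kB _ (kB _ hw)) (by
          simp only [map_add, map_sub, map_smul, B1, B2, B3, B4]
          module)
      exact mem_of_smul (c := 8) (by norm_num) (kA _ (kA _ h3)) (by
        simp only [map_add, map_sub, map_smul, A1, A2, A3]
        module)
    · exact mem_of_smul (c := 2 * α) (mul_ne_zero two_ne_zero h2) (kA _ hw) (by
        simp only [map_add, map_smul, A1, A2, A3, A4, h1]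
        module)
  · exact mem_of_smul (c := 8 * γ) (mul_ne_zero (by norm_num) h1) (kA _ (kA _ hw)) (by
      simp only [map_add, map_sub, map_smul, A1, A2, A3, A4]
      module)

/-- the second step. -/
lemma step2 {Q : Submodule ℂ H} {A B : H →ₗ[ℂ] H} (hA : ∀ v ∈ Q, A v ∈ Q) (hB : ∀ v ∈ Q, B v ∈ Q)
    {n q p z : H} (A1 : A n = n) (A2 : A q = q + (4 : ℂ) • p + (4 : ℂ) • z)
    (A3 : A p = p + (2 : ℂ) • z) (A4 : A z = z) (B1 : B n = n) (B2 : B q = q) (B3 : B p = p + q)
    (B4 : B z = z + (2 : ℂ) • p + q) {α β γ δ : ℂ}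
    (hw : α • n + β • q + γ • p + δ • z ∈ Q) (h : ¬ (β = 0 ∧ γ = 0 ∧ δ = 0)) : z ∈ Q ∧ q ∈ Q := by
  have kA : ∀ v ∈ Q, A v - v ∈ Q := fun v hv => Q.sub_mem (hA v hv) hv
  have kB : ∀ v ∈ Q, B v - v ∈ Q := fun v hv => Q.sub_mem (hB v hv) hv
  have k1 : z ∈ Q → q ∈ Q := fun hz => mem_of_smul (c := 2) two_ne_zero (kB _ (kB _ hz)) (by
    simp only [map_add, map_sub, map_smul, B2, B3, B4]
    module)
  have k2 : q ∈ Q → z ∈ Q := fun hq => mem_of_smul (c := 8) (by norm_num) (kA _ (kA _ hq)) (by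
    simp only [map_add, map_sub, map_smul, A2, A3, A4]
    module)
  suffices hz : z ∈ Q from ⟨hz, k1 hz⟩
  by_cases h1 : β = 0
  · by_cases h2 : γ = 0
    · exact k2 (mem_of_smul (c := 2 * δ) (mul_ne_zero two_ne_zero fun k => h ⟨h1, h2, k⟩)
        (kB _ (kB _ hw)) (by
          simp only [map_add, map_sub, map_smul, B1, B2, B3, B4]
          module))
    · exact mem_of_smul (c := 2 * γ) (mul_ne_zero two_ne_zero h2) (kA _ hw) (by
        simp only [map_add, map_smul, A1, A2, A3, A4, h1]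
        module)
  · exact mem_of_smul (c := 8 * β) (mul_ne_zero (by norm_num) h1) (kA _ (kA _ hw)) (by
      simp only [map_add, map_sub, map_smul, A1, A2, A3, A4]
      module)

end H86

open H86

theorem skill : SKill := by
  intro H _ _ _ N hC ⟨e, g, hli, hsp, he, hg, πe, πg, hρ⟩ ⟨K, E, _, _, p, j, i, t, hp, hj, hJ, hG⟩
  have hD : ∀ v, DD N.toWS v = -v := fun v => by
    obtain ⟨x, y, z, x', y', z', rfl⟩ := dec hsp (a := 0) (b := 1) (c := 2) (by unfold D3; decide) v
    simp only [map_add, map_smul, DD_one (he _), DD_univ (hg _)]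
    module
  have ht : ∀ a b v, tp N.toWS a b v = -N.π (swap a b) v := fun a b v => by
    rw [tp, gmul, hD, map_neg]
  have te : ∀ a b, a ≠ b → ∀ k, tp N.toWS a b (e k) = e (swap a b k) := fun a b h k => by
    rw [ht, πe, sg_swap _ h, neg_one_smul, neg_neg]
  have tg : ∀ a b, a ≠ b → ∀ k, tp N.toWS a b (g k) = g (swap a b k) := fun a b h k => by
    rw [ht, πg, sg_swap _ h, neg_one_smul, neg_neg]
  have εe : ∀ a k, N.ε a (e k) = if a = k then -e k else e k := fun a k => by
    simpa using mem_Se.1 (he k) a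
  have εg : ∀ a k, N.ε a (g k) = -g k := fun a k => Se_neg (hg k) (Finset.mem_univ a)
  have s1 : ∀ a b c, D3 a b c → g a ∈ Fx j (i a b) := by
    intro a b c d
    obtain ⟨h1, -, h2, -, h3, h4, -, -⟩ := hG a b c d
    obtain ⟨d1, d2, d3⟩ := id d
    have ia : p (i a b) (e a) = -e a := by simp [h1, εe, d1.symm]
    have ib : p (i a b) (e b) = -e b := by simp [h1, εe, d1]
    have ic : p (i a b) (e c) = e c := by simp [h1, εe, d2.symm, d3.symm]
    have ig : ∀ k, p (i a b) (g k) = g k := fun k => by simp [h1, εg]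
    have h5 : tr (p (i a b)) = 2 := by
      rw [tr_eq hli hsp _ (Sum.elim (fun k => if k = c then 1 else -1) fun _ => 1) id,
        Fintype.sum_sum_type, d.sum, d.sum]
      · simp [d2.symm, d3.symm]
        norm_num
      · rintro (k | k)
        · rcases d.cover k with rfl | rfl | rfl <;> simp [ia, ib, ic, d2.symm, d3.symm]
        · simp [ig]
    obtain ⟨w, hw, hn⟩ := ex_not_span (h2 h5) (g c)
    obtain ⟨x, y, z, x', y', z', rfl⟩ := dec hsp d w
    have h6 := fx_fixed hj hJ hw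
    simp only [map_add, map_smul, ia, ib, ic, ig] at h6
    obtain ⟨h7, h8, -⟩ := uniq hli d (x := 2 * x) (y := 2 * y) (z := 0) (x' := 0) (y' := 0) (z' := 0)
      (by linear_combination (norm := module) -h6)
    obtain rfl : x = 0 := by simpa using h7
    obtain rfl : y = 0 := by simpa using h8
    obtain ⟨-, -, r1, r2, r3, r4⟩ := hρ a b c d
    obtain ⟨-, -, q1, q2, q3, q4⟩ := hρ b a c d.perm.1
    rw [hC a b d1] at h3
    rw [hC b a d1.symm] at h4
    refine step1 (A := (N.ρ a b * N.ρ a b).toLinearMap) (B := (N.ρ b a * N.ρ b a).toLinearMap)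
      (fun v hv => (h3 v).1 hv) (fun v hv => (h4 v).1 hv) (u := e c) (y := g b) (z := g c)
      ?_ ?_ ?_ ?_ ?_ ?_ ?_ ?_ (α := z) (β := x') (γ := y') (δ := z') (by simpa using hw) ?_
    rotate_right
    · rintro ⟨rfl, rfl, rfl⟩
      exact hn z' (by simp)
    all_goals
      simp only [LinearEquiv.coe_coe, gmul, map_add, map_smul, r1, r2, r3, r4, q1, q2, q3, q4]
      try module
  have s2 : ∀ a b c, D3 a b c → g c ∈ Fx j (t a b) ∧ g a + g b - (2 : ℂ) • e c ∈ Fx j (t a b) := by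
    intro a b c d
    obtain ⟨-, h1, -, h2, -, -, h3, h4⟩ := hG a b c d
    obtain ⟨d1, d2, d3⟩ := id d
    have sc : swap a b c = c := swap_apply_of_ne_of_ne d2 d3
    have h5 : tr (p (t a b)) = 2 := by
      rw [tr_eq hli hsp _ (fun _ => 1) (Sum.map (swap a b) (swap a b)),
        Fintype.sum_sum_type, d.sum, d.sum]
      · simp [sc, d1, d1.symm]
        norm_num
      · rintro (k | k) <;> simp [h1, te a b d1, tg a b d1]
    obtain ⟨w, hw, hn⟩ := ex_not_span (h2 h5) (g a + g b + (2 : ℂ) • e c)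
    obtain ⟨x, y, z, x', y', z', rfl⟩ := dec hsp d w
    have h6 := fx_fixed hj hJ hw
    simp only [h1, map_add, map_smul, te a b d1, tg a b d1, sc, swap_apply_left,
      swap_apply_right] at h6
    obtain ⟨h7, -, -, h8, -⟩ := uniq hli d (x := x - y) (y := y - x) (z := 0) (x' := x' - y')
      (y' := y' - x') (z' := 0) (by linear_combination (norm := module) -h6)
    obtain rfl : x = y := sub_eq_zero.1 h7
    obtain rfl : x' = y' := sub_eq_zero.1 h8
    obtain ⟨r1, r2, r3, r4, r5, r6⟩ := hρ c a b d.perm.2.2.2.2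
    obtain ⟨q1, q2, q3, q4, q5, q6⟩ := hρ c b a d.perm.2.2.1
    obtain ⟨u1, u2, u3, u4, u5, u6⟩ := hρ a c b d.perm.2.1
    obtain ⟨v1, v2, v3, v4, v5, v6⟩ := hρ b c a d.perm.2.2.2.1
    rw [hC c a d2] at h3
    rw [hC b c d3.symm] at h4
    refine step2 (A := (N.ρ c a * N.ρ c b).toLinearMap) (B := (N.ρ a c * N.ρ b c).toLinearMap)
      (fun v hv => (h3 v).1 hv) (fun v hv => (h4 v).1 hv) (n := g a + g b + (2 : ℂ) • e c)
      (p := e a + e b) ?_ ?_ ?_ ?_ ?_ ?_ ?_ ?_ (α := x' / 2 + z / 4) (β := x' / 2 - z / 4) (γ := x)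
      (δ := z') ?_ ?_
    rotate_right 2
    · refine (congrArg (· ∈ Fx j (t a b)) ?_).mp hw
      module
    · rintro ⟨k1, rfl, rfl⟩
      refine hn x' ?_
      obtain rfl : z = 2 * x' := by linear_combination -4 * k1
      module
    all_goals
      simp only [LinearEquiv.coe_coe, gmul, map_add, map_sub, map_smul, r1, r2, r3, r4, r5, r6,
        q1, q2, q3, q4, q5, q6, u1, u2, u3, u4, u5, u6, v1, v2, v3, v4, v5, v6]
      try module
  have s3 : ∀ a b c, D3 a b c → ∀ x, j (g a) x ≠ 0 → j (g b) x = j (g a) x := by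
    intro a b c d x hx
    obtain ⟨d1, d2, d3⟩ := id d
    have fix : ∀ {k : K} {v : H}, v ∈ Fx j k → j v x ≠ 0 → k • x = x := fun hv h =>
      by_contra fun h' => h (hv x h')
    have h1 : i a c • x = x := fix (s1 a c b d.perm.2.1) hx
    have h2 : t b c • x = x := fix (s2 b c a d.perm.2.2.2.1).1 hx
    have h3 : j (e c) x = 0 := by
      have h4 := hJ (i a c) (e c) x
      have h5 : p (i a c) (e c) = -e c := by simp [(hG a c b d.perm.2.1).1, εe, d2.symm]
      rw [h1, h5, map_neg, Pi.neg_apply] at h4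
      linear_combination -h4 / 2
    have h4 : t a b • x = x := by
      by_cases h5 : j (g a + g b - (2 : ℂ) • e c) x = 0
      · have h6 : j (g b) x ≠ 0 := fun h6 => hx (by simpa [h3, h6] using h5)
        have h7 : t a c • x = x := fix (s2 a c b d.perm.2.1).1 h6
        have h8 : t a b = t a c * t b c * t a c := hp (by
          have e1 : swap a c * swap b c * swap a c = swap a b := by
            rw [swap_comm a c, swap_mul_swap_mul_swap d3.symm d1.symm]
          rw [map_mul, map_mul, (hG a b c d).2.1, (hG a c b d.perm.2.1).2.1,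
            (hG b c a d.perm.2.2.2.1).2.1]
          refine LinearEquiv.ext fun v => ?_
          simp only [gmul, ht, map_neg, neg_neg, ← e1, map_mul])
        rw [h8, mul_smul, mul_smul, h7, h2, h7]
      · exact fix (s2 a b c d).2 h5
    have h5 := hJ (t a b) (g a) x
    rwa [h4, (hG a b c d).2.1, tg a b d1, swap_apply_left] at h5
  have d : D3 0 1 2 := by unfold D3; decide
  have h1 : g 0 = g 1 := hj (funext fun x => by
    by_cases h : j (g 0) x = 0
    · by_contra h2
      exact h2 (s3 1 0 2 d.perm.1 x fun h3 => h2 (h.trans h3.symm))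
    · exact (s3 0 1 2 d x h).symm)
  have h2 := uniq hli d (x := 0) (y := 0) (z := 0) (x' := 1) (y' := -1) (z' := 0)
    (by rw [h1]; module)
  exact one_ne_zero h2.2.2.2.1

end Pool.Agent.MP_3ce0a0_al.H79.Y
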